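import Pool.Agent.W323.PT.Stm

/-! PT project: the three averaged hexagon inequalities. -/

set_option autoImplicit false

namespace Pool.Agent.W279.PT

open Pool.Agent.W323.PT

/-- sums of 24-periodic functions over 24 consecutive integers are shift invariant -/
theorem shift24 (f : ℤ → ℝ) (hf : ∀ i, f (i + 24) = f i) (a : ℤ) :
    ∑ r ∈ Finset.range 24, f ((r : ℤ) + a) = ∑ r ∈ Finset.range 24, f (r : ℤ) := by
  have step : ∀ b : ℤ, ∑ r ∈ Finset.range 24, f ((r : ℤ) + (b + 1)) =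
      ∑ r ∈ Finset.range 24, f ((r : ℤ) + b) := by
    intro b
    have h1 := Finset.sum_range_succ (fun r : ℕ => f ((r : ℤ) + b)) 24
    have h2 := Finset.sum_range_succ' (fun r : ℕ => f ((r : ℤ) + b)) 24
    have h3 : f (((24 : ℕ) : ℤ) + b) = f (((0 : ℕ) : ℤ) + b) := by
      have := hf b
      rw [show ((24 : ℕ) : ℤ) + b = b + 24 by push_cast; ring, this]
      simp
    have h4 : ∑ r ∈ Finset.range 24, f ((r : ℤ) + (b + 1)) =
        ∑ r ∈ Finset.range 24, f (((r + 1 : ℕ) : ℤ) + b) := by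
      refine Finset.sum_congr rfl fun r _ => ?_
      congr 1
      push_cast
      ring
    rw [h4]
    linarith
  induction a using Int.induction_on with
  | zero => simp
  | succ n ih => rw [step, ih]
  | pred n ih =>
    have := step (-(n : ℤ) - 1)
    rw [show -(n : ℤ) - 1 + 1 = -(n : ℤ) by ring] at this
    rw [← this, ih]

/-- sum of the logarithms of the areas of the triangles with gaps `s, t` -/
noncomputable def F (T : ℤ → Pt) (s t : ℤ) : ℝ :=
  ∑ r ∈ Finset.range 24, Real.log (o (T r) (T (r + s)) (T (r + s + t)))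

theorem CL_eq (T : ℤ → Pt) (s t : ℤ) : CL T s t = F T s t + F T t s := by
  unfold CL F
  rw [Finset.sum_add_distrib]

theorem F_shift (T : ℤ → Pt) (hT : ∀ i, T (i + 24) = T i) (s t a : ℤ) :
    F T s t = ∑ r ∈ Finset.range 24,
      Real.log (o (T ((r : ℤ) + a)) (T ((r : ℤ) + a + s)) (T ((r : ℤ) + a + s + t))) := by
  have h := shift24 (fun i : ℤ => Real.log (o (T i) (T (i + s)) (T (i + s + t)))) (by
    intro i
    have e1 : i + 24 + s = (i + s) + 24 := by ring
    have e2 : (i + s) + 24 + t = (i + s + t) + 24 := by ring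
    simp only [e1, e2, hT]) a
  unfold F
  exact h.symm

theorem D_form2 (t1 t2 t3 t4 t5 t6 : Pt) :
    D t1 t2 t3 t4 t5 t6 = o t1 t4 t5 * o t2 t3 t6 - o t1 t2 t4 * o t3 t5 t6 := by
  unfold D o
  ring

theorem D_form3 (t1 t2 t3 t4 t5 t6 : Pt) :
    D t1 t2 t3 t4 t5 t6 = o t1 t3 t6 * o t2 t4 t5 - o t1 t2 t5 * o t3 t4 t6 := by
  unfold D o
  ring

theorem log_ineq {a b c d : ℝ} (ha : 0 < a) (hb : 0 < b) (hc : 0 < c) (hd : 0 < d)
    (h : 0 < a * b - c * d) : Real.log c + Real.log d < Real.log a + Real.log b := by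
  rw [← Real.log_mul hc.ne' hd.ne', ← Real.log_mul ha.ne' hb.ne']
  exact Real.log_lt_log (mul_pos hc hd) (by linarith)

theorem sum_ineq (f g h k : ℕ → ℝ) (H : ∀ r, f r + g r < h r + k r) :
    ∑ r ∈ Finset.range 24, f r + ∑ r ∈ Finset.range 24, g r <
      ∑ r ∈ Finset.range 24, h r + ∑ r ∈ Finset.range 24, k r := by
  rw [← Finset.sum_add_distrib, ← Finset.sum_add_distrib]
  exact Finset.sum_lt_sum_of_nonempty ⟨0, by simp⟩ fun r _ => H r

/-- the three inequalities of one orientation -/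
theorem hex (T : ℤ → Pt) (hT : Cyc T) (g1 g2 g3 g4 g5 : ℤ) (h1 : 0 < g1) (h2 : 0 < g2)
    (h3 : 0 < g3) (h4 : 0 < g4) (h5 : 0 < g5) (hs : g1 + g2 + g3 + g4 + g5 < 24)
    (H : ∀ r : ℤ, 0 < D (T r) (T (r + g1)) (T (r + g1 + g2)) (T (r + g1 + g2 + g3))
      (T (r + g1 + g2 + g3 + g4)) (T (r + g1 + g2 + g3 + g4 + g5))) :
    F T (g1 + g2) g3 + F T (g2 + g3 + g4) g5 < F T (g1 + g2 + g3) (g4 + g5) + F T g2 (g3 + g4) ∧
    F T g1 (g2 + g3) + F T (g3 + g4) g5 < F T (g1 + g2 + g3) g4 + F T g2 (g3 + g4 + g5) ∧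
    F T g1 (g2 + g3 + g4) + F T g3 (g4 + g5) < F T (g1 + g2) (g3 + g4 + g5) + F T (g2 + g3) g4 := by
  obtain ⟨hper, hpos⟩ := hT
  refine ⟨?_, ?_, ?_⟩
  · rw [F_shift T hper (g1 + g2) g3 0, F_shift T hper (g2 + g3 + g4) g5 g1,
      F_shift T hper (g1 + g2 + g3) (g4 + g5) 0, F_shift T hper g2 (g3 + g4) g1]
    refine sum_ineq _ _ _ _ fun r => ?_
    simp only [add_zero, ← add_assoc]
    refine log_ineq (hpos _ _ _ (by linarith) (by linarith) (by linarith))
      (hpos _ _ _ (by linarith) (by linarith) (by linarith))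
      (hpos _ _ _ (by linarith) (by linarith) (by linarith))
      (hpos _ _ _ (by linarith) (by linarith) (by linarith)) ?_
    exact H r
  · rw [F_shift T hper g1 (g2 + g3) 0, F_shift T hper (g3 + g4) g5 (g1 + g2),
      F_shift T hper (g1 + g2 + g3) g4 0, F_shift T hper g2 (g3 + g4 + g5) g1]
    refine sum_ineq _ _ _ _ fun r => ?_
    simp only [add_zero, ← add_assoc]
    refine log_ineq (hpos _ _ _ (by linarith) (by linarith) (by linarith))
      (hpos _ _ _ (by linarith) (by linarith) (by linarith))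
      (hpos _ _ _ (by linarith) (by linarith) (by linarith))
      (hpos _ _ _ (by linarith) (by linarith) (by linarith)) ?_
    rw [← D_form2]
    exact H r
  · rw [F_shift T hper g1 (g2 + g3 + g4) 0, F_shift T hper g3 (g4 + g5) (g1 + g2),
      F_shift T hper (g1 + g2) (g3 + g4 + g5) 0, F_shift T hper (g2 + g3) g4 g1]
    refine sum_ineq _ _ _ _ fun r => ?_
    simp only [add_zero, ← add_assoc]
    refine log_ineq (hpos _ _ _ (by linarith) (by linarith) (by linarith))
      (hpos _ _ _ (by linarith) (by linarith) (by linarith))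
      (hpos _ _ _ (by linarith) (by linarith) (by linarith))
      (hpos _ _ _ (by linarith) (by linarith) (by linarith)) ?_
    rw [← D_form3]
    exact H r

theorem clhex : S_CLhex := by
  intro T hT g1 g2 g3 g4 g5 h1 h2 h3 h4 h5 hs H
  obtain ⟨a1, a2, a3⟩ := hex T hT g1 g2 g3 g4 g5 h1 h2 h3 h4 h5 hs fun r => (H r).1
  obtain ⟨b1, b2, b3⟩ := hex T hT g5 g4 g3 g2 g1 h5 h4 h3 h2 h1 (by linarith) fun r => (H r).2
  have e1 : g5 + g4 = g4 + g5 := by ring
  have e2 : g4 + g3 + g2 = g2 + g3 + g4 := by ring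
  have e3 : g5 + g4 + g3 = g3 + g4 + g5 := by ring
  have e4 : g2 + g1 = g1 + g2 := by ring
  have e5 : g3 + g2 = g2 + g3 := by ring
  have e6 : g4 + g3 = g3 + g4 := by ring
  have e7 : g3 + g2 + g1 = g1 + g2 + g3 := by ring
  simp only [e3, e2, e7] at b1 b2 b3
  simp only [e1, e4, e5, e6] at b1 b2 b3
  simp only [CL_eq]
  refine ⟨by linarith, by linarith, by linarith⟩

end Pool.Agent.W279.PT
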